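import Mathlib
import Pool.Agent.V5helper66.LD.Stm

/-!
Sums over the points of a lattice `g ∣ k·b` in boxes, by cubes of side `g`.
-/

open Finset

namespace V5LD.Cubes

/-- harmonic sums from above. -/
theorem harm_le {a b : ℕ} (ha : 1 ≤ a) (hab : a ≤ b) :
    ∑ q ∈ Finset.Icc a b, (1 : ℝ) / q ≤ 1 + Real.log ((b : ℝ) / a) := by
  have key : ∑ q ∈ Finset.Icc a b, (1 : ℝ) / q ≤ 1 / a + Real.log ((b : ℝ) / a) := by
    induction b, hab using Nat.le_induction with
    | base =>
      have : (a : ℝ) ≠ 0 := by positivity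
      simp [div_self this]
    | succ b hab ih =>
      rw [Finset.sum_Icc_succ_top (by omega)]
      have hb : (0 : ℝ) < b := by
        have : 0 < b := by omega
        exact_mod_cast this
      have ha' : (0 : ℝ) < a := by exact_mod_cast ha
      have h1 : Real.log (((b + 1 : ℕ) : ℝ) / a)
          = Real.log ((b : ℝ) / a) + Real.log (((b : ℝ) + 1) / b) := by
        rw [← Real.log_mul (by positivity) (by positivity)]
        congr 1
        push_cast
        field_simp
      have h2 : (1 : ℝ) / ((b + 1 : ℕ) : ℝ) ≤ Real.log (((b : ℝ) + 1) / b) := by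
        have h3 := Real.log_le_sub_one_of_pos (x := (b : ℝ) / (b + 1)) (by positivity)
        have h4 : Real.log (((b : ℝ) + 1) / b) = - Real.log ((b : ℝ) / (b + 1)) := by
          rw [← Real.log_inv]
          congr 1
          rw [inv_div]
        rw [h4]
        have h5 : (b : ℝ) / (b + 1) - 1 = - (1 / (b + 1)) := by
          field_simp
          ring
        push_cast
        linarith
      linarith
  have : (1 : ℝ) / a ≤ 1 := by
    rw [div_le_one (by exact_mod_cast ha)]
    exact_mod_cast ha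
  linarith

/-- harmonic sums from below. -/
theorem le_harm {a b : ℕ} (hab : a ≤ b) :
    Real.log (((b : ℝ) + 1) / (a + 1)) ≤ ∑ q ∈ Finset.Ico a b, (1 : ℝ) / (q + 1) := by
  induction b, hab using Nat.le_induction with
  | base =>
    have : (a : ℝ) + 1 ≠ 0 := by positivity
    simp [div_self this]
  | succ b hab ih =>
    rw [Finset.sum_Ico_succ_top (by omega)]
    have hb : (0 : ℝ) ≤ b := by positivity
    have ha' : (0 : ℝ) ≤ a := by positivity
    have h1 : Real.log ((((b + 1 : ℕ) : ℝ) + 1) / (a + 1))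
        = Real.log (((b : ℝ) + 1) / (a + 1)) + Real.log (((b : ℝ) + 1 + 1) / (b + 1)) := by
      rw [← Real.log_mul (by positivity) (by positivity)]
      congr 1
      push_cast
      field_simp
    have h2 : Real.log (((b : ℝ) + 1 + 1) / (b + 1)) ≤ 1 / ((b : ℝ) + 1) := by
      have h3 := Real.log_le_sub_one_of_pos (x := ((b : ℝ) + 1 + 1) / (b + 1)) (by positivity)
      have h5 : ((b : ℝ) + 1 + 1) / (b + 1) - 1 = 1 / (b + 1) := by
        field_simp
        ring
      linarith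
    linarith

/-- a set of naturals in a short multiplicative interval. -/
theorem near_le (T : Finset ℕ) {r : ℝ} (hr : 1 ≤ r) (hpos : ∀ x ∈ T, 1 ≤ x)
    (h : ∀ x ∈ T, ∀ y ∈ T, (x : ℝ) ≤ r * y) :
    ∑ x ∈ T, (1 : ℝ) / x ≤ 1 + Real.log r := by
  rcases T.eq_empty_or_nonempty with rfl | hne
  · simp
    have := Real.log_nonneg hr
    linarith
  · have ha := T.min'_mem hne
    have hb := T.max'_mem hne
    have hab : T.min' hne ≤ T.max' hne := T.min'_le _ hb
    have hsub : T ⊆ Finset.Icc (T.min' hne) (T.max' hne) := by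
      intro x hx
      exact Finset.mem_Icc.2 ⟨T.min'_le x hx, T.le_max' x hx⟩
    calc ∑ x ∈ T, (1 : ℝ) / x ≤ ∑ x ∈ Finset.Icc (T.min' hne) (T.max' hne), (1 : ℝ) / x :=
          Finset.sum_le_sum_of_subset_of_nonneg hsub (fun i _ _ => by positivity)
      _ ≤ 1 + Real.log ((T.max' hne : ℝ) / (T.min' hne : ℝ)) := harm_le (hpos _ ha) hab
      _ ≤ 1 + Real.log r := by
          have h0 : (0 : ℝ) < (T.min' hne : ℝ) := by exact_mod_cast hpos _ ha
          have h1 : (0 : ℝ) < (T.max' hne : ℝ) := by exact_mod_cast hpos _ hb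
          have := Real.log_le_log (div_pos h1 h0) ((div_le_iff₀ h0).2 (h _ hb _ ha))
          linarith

open Classical in
/-- residues. -/
noncomputable def Res (n g : ℕ) (b : Fin n → ℕ) : Finset (Fin n → Fin g) :=
  (univ : Finset (Fin n → Fin g)).filter (fun ρ => g ∣ ∑ i, ((ρ i : Fin g) : ℕ) * b i)

theorem card_Res (n g : ℕ) (b : Fin n → ℕ) : (Res n g b).card = cnt n g b := rfl

/-- a sum over the lattice points of a box, cube by cube. -/
theorem sum_Lat {n g : ℕ} (hg : 0 < g) (b : Fin n → ℕ) (Q0 Q1 : ℕ) (f : (Fin n → ℕ) → ℝ) :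
    ∑ k ∈ Lat n g b Q0 Q1, f k
      = ∑ q ∈ Fintype.piFinset (fun _ : Fin n => Finset.Ico Q0 Q1), ∑ ρ ∈ Res n g b,
          f (fun i => g * q i + (ρ i : ℕ)) := by
  rw [← Finset.sum_product']
  symm
  have key : ∀ (q : Fin n → ℕ) (ρ : Fin n → Fin g),
      g ∣ ∑ i, (g * q i + (ρ i : ℕ)) * b i ↔ g ∣ ∑ i, (ρ i : ℕ) * b i := by
    intro q ρ
    have : ∑ i, (g * q i + (ρ i : ℕ)) * b i = g * (∑ i, q i * b i) + ∑ i, (ρ i : ℕ) * b i := by
      rw [Finset.mul_sum, ← Finset.sum_add_distrib]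
      exact Finset.sum_congr rfl (fun i _ => by ring)
    rw [this]
    exact (Nat.dvd_add_right (Dvd.intro _ rfl))
  refine Finset.sum_nbij' (fun p i => g * p.1 i + (p.2 i : ℕ))
    (fun k => ((fun i => k i / g), (fun i => ⟨k i % g, Nat.mod_lt _ hg⟩))) ?_ ?_ ?_ ?_ ?_
  · rintro ⟨q, ρ⟩ h
    simp only [Finset.mem_product, Fintype.mem_piFinset, Finset.mem_Ico, Res,
      Finset.mem_filter, Finset.mem_univ, true_and] at h
    simp only [Lat, Finset.mem_filter, Fintype.mem_piFinset, Finset.mem_Ico]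
    refine ⟨fun i => ⟨?_, ?_⟩, (key q ρ).2 h.2⟩
    · have := Nat.mul_le_mul_left g (h.1 i).1
      omega
    · have h1 : q i + 1 ≤ Q1 := (h.1 i).2
      have h2 := Nat.mul_le_mul_left g h1
      have h3 := (ρ i).2
      rw [mul_add, mul_one] at h2
      omega
  · intro k h
    simp only [Lat, Finset.mem_filter, Fintype.mem_piFinset, Finset.mem_Ico] at h
    simp only [Finset.mem_product, Fintype.mem_piFinset, Finset.mem_Ico, Res,
      Finset.mem_filter, Finset.mem_univ, true_and]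
    refine ⟨fun i => ⟨?_, ?_⟩, ?_⟩
    · rw [Nat.le_div_iff_mul_le hg]
      have := (h.1 i).1
      rwa [mul_comm] at this
    · rw [Nat.div_lt_iff_lt_mul hg]
      have := (h.1 i).2
      rwa [mul_comm] at this
    · have h2 := h.2
      rw [← key (fun i => k i / g) (fun i => ⟨k i % g, Nat.mod_lt _ hg⟩)]
      simpa [Nat.div_add_mod] using h2
  · rintro ⟨q, ρ⟩ _
    have h1 : ∀ i, (g * q i + (ρ i : ℕ)) / g = q i := by
      intro i
      rw [Nat.mul_add_div hg, Nat.div_eq_of_lt (ρ i).2, add_zero]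
    have h2 : ∀ i, (g * q i + (ρ i : ℕ)) % g = (ρ i : ℕ) := by
      intro i
      rw [Nat.mul_add_mod, Nat.mod_eq_of_lt (ρ i).2]
    refine Prod.ext ?_ ?_
    · funext i
      exact h1 i
    · funext i
      exact Fin.ext (h2 i)
  · intro k _
    funext i
    exact Nat.div_add_mod (k i) g
  · intro p _
    rfl

/-- sums of products over boxes. -/
theorem sum_box {n : ℕ} (s : Fin n → Finset ℕ) (f : ℕ → ℝ) :
    ∑ q ∈ Fintype.piFinset s, ∏ i, f (q i) = ∏ i, ∑ x ∈ s i, f x :=
  (Finset.prod_univ_sum s (fun _ x => f x)).symm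

theorem one_div_pr {n : ℕ} (k : Fin n → ℕ) : 1 / pr k = ∏ i, (1 : ℝ) / (k i : ℝ) := by
  simp [pr, Finset.prod_inv_distrib]

theorem pr_nonneg {n : ℕ} (k : Fin n → ℕ) : 0 ≤ pr k :=
  Finset.prod_nonneg (fun _ _ => by positivity)

theorem pr_pos {n : ℕ} {k : Fin n → ℕ} (h : ∀ i, 0 < k i) : 0 < pr k :=
  Finset.prod_pos (fun i _ => by exact_mod_cast h i)

/-- `pr` of a point of the cube `q` from below. -/
theorem pr_ge {n g : ℕ} (q : Fin n → ℕ) (ρ : Fin n → Fin g) :
    (g : ℝ) ^ n * pr q ≤ pr (fun i => g * q i + (ρ i : ℕ)) := by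
  have : (g : ℝ) ^ n = ∏ _i : Fin n, (g : ℝ) := by simp
  rw [this, pr, pr, ← Finset.prod_mul_distrib]
  refine Finset.prod_le_prod (fun i _ => by positivity) (fun i _ => ?_)
  push_cast
  have : (0 : ℝ) ≤ ((ρ i : ℕ) : ℝ) := by positivity
  linarith

/-- `pr` of a point of the cube `q` from above. -/
theorem pr_le {n g : ℕ} (q : Fin n → ℕ) (ρ : Fin n → Fin g) :
    pr (fun i => g * q i + (ρ i : ℕ)) ≤ (g : ℝ) ^ n * ∏ i, ((q i : ℝ) + 1) := by
  have : (g : ℝ) ^ n = ∏ _i : Fin n, (g : ℝ) := by simp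
  rw [this, pr, ← Finset.prod_mul_distrib]
  refine Finset.prod_le_prod (fun i _ => by positivity) (fun i _ => ?_)
  push_cast
  have : (((ρ i : Fin g) : ℕ) : ℝ) ≤ g := by exact_mod_cast (ρ i).2.le
  linarith

end V5LD.Cubes
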