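import Mathlib
import Pool.Agent.V5helper34.LD.Cubes

/-!
The mass of close pairs of lattice points in a box.
-/

open Finset

namespace V5LD.LatTwo

open V5LD.Cubes

/-- closeness passes to the cubes. -/
theorem close_cube {n g : ℕ} (hn : 1 ≤ n) (hg : 0 < g) {R : ℝ} (hR : 1 ≤ R)
    {q q' : Fin n → ℕ} (hq : ∀ i, 0 < q i) (hq' : ∀ i, 0 < q' i) (ρ ρ' : Fin n → Fin g)
    (h : Close R (fun i => g * q i + (ρ i : ℕ)) (fun i => g * q' i + (ρ' i : ℕ))) :
    Close (2 ^ n * R) q q' := by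
  have hg' : (0 : ℝ) < g := by exact_mod_cast hg
  have h2 : (2 : ℝ) ≤ 2 ^ n := by
    calc (2 : ℝ) = 2 ^ 1 := by norm_num
      _ ≤ 2 ^ n := pow_le_pow_right₀ (by norm_num) hn
  have one : ∀ (x y : ℕ) (r r' : Fin g), 0 < y →
      ((g * x + (r : ℕ) : ℕ) : ℝ) ≤ R * ((g * y + (r' : ℕ) : ℕ) : ℝ) →
      (x : ℝ) ≤ 2 ^ n * R * y := by
    intro x y r r' hy h
    push_cast at h
    have h1 : (0 : ℝ) ≤ ((r : ℕ) : ℝ) := by positivity
    have h3 : ((r' : ℕ) : ℝ) ≤ g := by exact_mod_cast r'.2.le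
    have h4 : (1 : ℝ) ≤ y := by exact_mod_cast hy
    have h5 : (g : ℝ) * x ≤ R * (g * y + g * y) := by
      have : (g : ℝ) * y + ((r' : ℕ) : ℝ) ≤ g * y + g * y := by nlinarith
      have := mul_le_mul_of_nonneg_left this (by linarith : (0 : ℝ) ≤ R)
      linarith
    have h6 : (g : ℝ) * x ≤ g * (2 * R * y) := by
      calc (g : ℝ) * x ≤ R * (g * y + g * y) := h5
        _ = g * (2 * R * y) := by ring
    have h7 : (x : ℝ) ≤ 2 * R * y := le_of_mul_le_mul_left h6 hg'
    have h8 : 2 * (R * y) ≤ 2 ^ n * (R * y) :=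
      mul_le_mul_of_nonneg_right h2 (by positivity)
    linarith
  have two : ∀ (x y : Fin n → ℕ) (r r' : Fin n → Fin g), (∀ i, 0 < y i) →
      pr (fun i => g * x i + (r i : ℕ)) ≤ R * pr (fun i => g * y i + (r' i : ℕ)) →
      pr x ≤ 2 ^ n * R * pr y := by
    intro x y r r' hy h
    have h1 := pr_ge x r
    have h3 := pr_le y r'
    have h4 : ∏ i, ((y i : ℝ) + 1) ≤ 2 ^ n * pr y := by
      have : (2 : ℝ) ^ n = ∏ _i : Fin n, (2 : ℝ) := by simp
      rw [this, pr, ← Finset.prod_mul_distrib]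
      refine Finset.prod_le_prod (fun i _ => by positivity) (fun i _ => ?_)
      have : (1 : ℝ) ≤ y i := by exact_mod_cast hy i
      linarith
    have hgn : (0 : ℝ) < (g : ℝ) ^ n := by positivity
    have h5 : (g : ℝ) ^ n * pr x ≤ (g : ℝ) ^ n * (2 ^ n * R * pr y) := by
      calc (g : ℝ) ^ n * pr x ≤ pr (fun i => g * x i + (r i : ℕ)) := h1
        _ ≤ R * pr (fun i => g * y i + (r' i : ℕ)) := h
        _ ≤ R * ((g : ℝ) ^ n * (2 ^ n * pr y)) := by
            refine mul_le_mul_of_nonneg_left ?_ (by linarith)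
            exact h3.trans (mul_le_mul_of_nonneg_left h4 hgn.le)
        _ = (g : ℝ) ^ n * (2 ^ n * R * pr y) := by ring
    exact le_of_mul_le_mul_left h5 hgn
  rcases h with ⟨i, h1, h3⟩ | ⟨h1, h3⟩
  · exact Or.inl ⟨i, one _ _ _ _ (hq' i) h1, one _ _ _ _ (hq i) h3⟩
  · exact Or.inr ⟨two _ _ _ _ hq' h1, two _ _ _ _ hq h3⟩

/-- harmonic sum over a range of cubes. -/
theorem full_le {Q0 Q1 : ℕ} (h0 : 0 < Q0) (h : Q0 ≤ Q1) :
    ∑ x ∈ Finset.Ico Q0 Q1, (1 : ℝ) / x ≤ 1 + Real.log Q1 := by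
  have h1 : (1 : ℝ) ≤ Q0 := by exact_mod_cast h0
  have h2 : (0 : ℝ) < Q1 := by exact_mod_cast lt_of_lt_of_le h0 h
  calc ∑ x ∈ Finset.Ico Q0 Q1, (1 : ℝ) / x ≤ ∑ x ∈ Finset.Icc Q0 Q1, (1 : ℝ) / x := by
        refine Finset.sum_le_sum_of_subset_of_nonneg ?_ (fun i _ _ => by positivity)
        exact Finset.Ico_subset_Icc_self
    _ ≤ 1 + Real.log ((Q1 : ℝ) / Q0) := harm_le h0 h
    _ ≤ 1 + Real.log Q1 := by
        have := Real.log_le_log (div_pos h2 (by linarith)) (div_le_self h2.le h1)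
        linarith

/-- the sum over all cubes. -/
theorem box_le {n Q0 Q1 : ℕ} (h0 : 0 < Q0) (h : Q0 ≤ Q1) :
    ∑ q ∈ Fintype.piFinset (fun _ : Fin n => Finset.Ico Q0 Q1), 1 / pr q
      ≤ (1 + Real.log Q1) ^ n := by
  calc ∑ q ∈ Fintype.piFinset (fun _ : Fin n => Finset.Ico Q0 Q1), 1 / pr q
      = ∑ q ∈ Fintype.piFinset (fun _ : Fin n => Finset.Ico Q0 Q1),
          ∏ i, (fun x : ℕ => (1 : ℝ) / x) (q i) :=
        Finset.sum_congr rfl (fun q _ => one_div_pr q)
    _ = ∏ _i : Fin n, ∑ x ∈ Finset.Ico Q0 Q1, (1 : ℝ) / x :=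
        sum_box _ (fun x : ℕ => (1 : ℝ) / x)
    _ ≤ ∏ _i : Fin n, (1 + Real.log Q1) :=
        Finset.prod_le_prod (fun i _ => Finset.sum_nonneg (fun _ _ => by positivity))
          (fun i _ => full_le h0 h)
    _ = (1 + Real.log Q1) ^ n := by simp

/-- cubes close to a given one in the coordinate `i`. -/
theorem coord_le {n Q0 Q1 : ℕ} (h0 : 0 < Q0) (h : Q0 ≤ Q1) {R : ℝ} (hR : 1 ≤ R)
    (q : Fin n → ℕ) (i : Fin n) :
    ∑ q' ∈ (Fintype.piFinset (fun _ : Fin n => Finset.Ico Q0 Q1)).filter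
        (fun q' => (q i : ℝ) ≤ R * q' i ∧ (q' i : ℝ) ≤ R * q i), 1 / pr q'
      ≤ (1 + Real.log (R ^ 2)) * (1 + Real.log Q1) ^ (n - 1) := by
  classical
  set N : Finset ℕ := (Finset.Ico Q0 Q1).filter
    (fun x => (q i : ℝ) ≤ R * x ∧ (x : ℝ) ≤ R * q i) with hN
  have hsub : (Fintype.piFinset (fun _ : Fin n => Finset.Ico Q0 Q1)).filter
      (fun q' => (q i : ℝ) ≤ R * q' i ∧ (q' i : ℝ) ≤ R * q i)
      ⊆ Fintype.piFinset (fun j : Fin n => if j = i then N else Finset.Ico Q0 Q1) := by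
    intro q' hq'
    simp only [Finset.mem_filter, Fintype.mem_piFinset] at hq'
    rw [Fintype.mem_piFinset]
    intro j
    by_cases hj : j = i
    · subst hj
      simp only [if_true, hN, Finset.mem_filter]
      exact ⟨hq'.1 j, hq'.2⟩
    · simp only [hj, if_false]
      exact hq'.1 j
  have hR0 : (0 : ℝ) ≤ R := by linarith
  have hnear : ∑ x ∈ N, (1 : ℝ) / x ≤ 1 + Real.log (R ^ 2) := by
    refine near_le N (one_le_pow₀ hR) ?_ ?_
    · intro x hx
      simp only [hN, Finset.mem_filter, Finset.mem_Ico] at hx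
      omega
    · intro x hx y hy
      simp only [hN, Finset.mem_filter] at hx hy
      calc (x : ℝ) ≤ R * q i := hx.2.2
        _ ≤ R * (R * y) := mul_le_mul_of_nonneg_left hy.2.1 hR0
        _ = R ^ 2 * y := by ring
  calc ∑ q' ∈ (Fintype.piFinset (fun _ : Fin n => Finset.Ico Q0 Q1)).filter
        (fun q' => (q i : ℝ) ≤ R * q' i ∧ (q' i : ℝ) ≤ R * q i), 1 / pr q'
      ≤ ∑ q' ∈ Fintype.piFinset (fun j : Fin n => if j = i then N else Finset.Ico Q0 Q1),
          1 / pr q' :=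
        Finset.sum_le_sum_of_subset_of_nonneg hsub
          (fun k _ _ => div_nonneg zero_le_one (pr_nonneg k))
    _ = ∑ q' ∈ Fintype.piFinset (fun j : Fin n => if j = i then N else Finset.Ico Q0 Q1),
          ∏ j, (fun x : ℕ => (1 : ℝ) / x) (q' j) :=
        Finset.sum_congr rfl (fun q _ => one_div_pr q)
    _ = ∏ j : Fin n, ∑ x ∈ (if j = i then N else Finset.Ico Q0 Q1), (1 : ℝ) / x :=
        sum_box _ (fun x : ℕ => (1 : ℝ) / x)
    _ = (∑ x ∈ N, (1 : ℝ) / x) *
          ∏ j ∈ univ.erase i, ∑ x ∈ (if j = i then N else Finset.Ico Q0 Q1), (1 : ℝ) / x := by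
        rw [← Finset.mul_prod_erase univ _ (Finset.mem_univ i)]
        simp
    _ ≤ (1 + Real.log (R ^ 2)) * ∏ j ∈ univ.erase i, (1 + Real.log Q1) := by
        refine mul_le_mul hnear ?_ ?_ ?_
        · refine Finset.prod_le_prod
            (fun j _ => Finset.sum_nonneg (fun _ _ => by positivity)) (fun j hj => ?_)
          rw [if_neg (Finset.ne_of_mem_erase hj)]
          exact full_le h0 h
        · exact Finset.prod_nonneg (fun j _ => Finset.sum_nonneg (fun _ _ => by positivity))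
        · have := Real.log_nonneg (one_le_pow₀ hR : (1 : ℝ) ≤ R ^ 2)
          linarith
    _ = (1 + Real.log (R ^ 2)) * (1 + Real.log Q1) ^ (n - 1) := by
        rw [Finset.prod_const, Finset.card_erase_of_mem (Finset.mem_univ i), Finset.card_univ,
          Fintype.card_fin]

/-- cubes close to a given one in the product. -/
theorem prod_le {n Q0 Q1 : ℕ} (hn : 1 ≤ n) (h0 : 0 < Q0) (h : Q0 ≤ Q1) {R : ℝ} (hR : 1 ≤ R)
    (q : Fin n → ℕ) :
    ∑ q' ∈ (Fintype.piFinset (fun _ : Fin n => Finset.Ico Q0 Q1)).filter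
        (fun q' => pr q ≤ R * pr q' ∧ pr q' ≤ R * pr q), 1 / pr q'
      ≤ (1 + Real.log (R ^ 2)) * (1 + Real.log Q1) ^ (n - 1) := by
  classical
  obtain ⟨m, rfl⟩ : ∃ m, n = m + 1 := ⟨n - 1, by omega⟩
  have hR0 : (0 : ℝ) ≤ R := by linarith
  have prc : ∀ (x : ℕ) (y : Fin m → ℕ), pr (Fin.cons x y : Fin (m + 1) → ℕ) = x * pr y := by
    intro x y
    simp [pr, Fin.prod_univ_succ]
  have step : ∑ q' ∈ (Fintype.piFinset (fun _ : Fin (m + 1) => Finset.Ico Q0 Q1)).filter
        (fun q' => pr q ≤ R * pr q' ∧ pr q' ≤ R * pr q), 1 / pr q'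
      = ∑ y ∈ Fintype.piFinset (fun _ : Fin m => Finset.Ico Q0 Q1),
          ∑ x ∈ (Finset.Ico Q0 Q1).filter (fun x : ℕ => pr q ≤ R * (x * pr y) ∧
            x * pr y ≤ R * pr q), (1 : ℝ) / (x * pr y) := by
    rw [Finset.sum_sigma']
    refine Finset.sum_nbij' (fun k => ⟨Fin.tail k, k 0⟩)
      (fun p => (Fin.cons p.2 p.1 : Fin (m + 1) → ℕ)) ?_ ?_ ?_ ?_ ?_
    · intro k hk
      simp only [Finset.mem_filter, Fintype.mem_piFinset] at hk
      have hk' : (Fin.cons (k 0) (Fin.tail k) : Fin (m + 1) → ℕ) = k := Fin.cons_self_tail k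
      have := prc (k 0) (Fin.tail k)
      rw [hk'] at this
      simp only [Finset.mem_sigma, Finset.mem_filter, Fintype.mem_piFinset]
      refine ⟨fun i => hk.1 i.succ, hk.1 0, ?_⟩
      rw [← this]
      exact hk.2
    · rintro ⟨y, x⟩ hp
      simp only [Finset.mem_sigma, Finset.mem_filter, Fintype.mem_piFinset] at hp
      simp only [Finset.mem_filter, Fintype.mem_piFinset]
      refine ⟨fun i => ?_, ?_⟩
      · refine Fin.cases ?_ (fun j => ?_) i
        · simpa using hp.2.1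
        · simpa using hp.1 j
      · rw [prc]
        exact hp.2.2
    · intro k _
      exact Fin.cons_self_tail k
    · rintro ⟨y, x⟩ _
      simp
    · intro k _
      have hk' : (Fin.cons (k 0) (Fin.tail k) : Fin (m + 1) → ℕ) = k := Fin.cons_self_tail k
      have := prc (k 0) (Fin.tail k)
      rw [hk'] at this
      rw [this]
  rw [step]
  have hl : 0 ≤ 1 + Real.log (R ^ 2) := by
    have := Real.log_nonneg (one_le_pow₀ hR : (1 : ℝ) ≤ R ^ 2)
    linarith
  calc ∑ y ∈ Fintype.piFinset (fun _ : Fin m => Finset.Ico Q0 Q1),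
          ∑ x ∈ (Finset.Ico Q0 Q1).filter (fun x : ℕ => pr q ≤ R * (x * pr y) ∧
            x * pr y ≤ R * pr q), (1 : ℝ) / (x * pr y)
      ≤ ∑ y ∈ Fintype.piFinset (fun _ : Fin m => Finset.Ico Q0 Q1),
          (1 + Real.log (R ^ 2)) * (1 / pr y) := by
        refine Finset.sum_le_sum (fun y hy => ?_)
        have hy' : 0 < pr y := by
          refine pr_pos (fun i => ?_)
          have := Fintype.mem_piFinset.1 hy i
          rw [Finset.mem_Ico] at this
          omega
        set N := (Finset.Ico Q0 Q1).filter (fun x : ℕ => pr q ≤ R * (x * pr y) ∧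
            x * pr y ≤ R * pr q) with hN
        have hnear : ∑ x ∈ N, (1 : ℝ) / x ≤ 1 + Real.log (R ^ 2) := by
          refine near_le N (one_le_pow₀ hR) ?_ ?_
          · intro x hx
            simp only [hN, Finset.mem_filter, Finset.mem_Ico] at hx
            omega
          · intro x hx z hz
            simp only [hN, Finset.mem_filter] at hx hz
            have h1 : (x : ℝ) * pr y ≤ R ^ 2 * z * pr y := by
              calc (x : ℝ) * pr y ≤ R * pr q := hx.2.2
                _ ≤ R * (R * (z * pr y)) := mul_le_mul_of_nonneg_left hz.2.1 hR0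
                _ = R ^ 2 * z * pr y := by ring
            exact le_of_mul_le_mul_right h1 hy'
        calc ∑ x ∈ N, (1 : ℝ) / (x * pr y) = (∑ x ∈ N, (1 : ℝ) / x) * (1 / pr y) := by
              rw [Finset.sum_mul]
              refine Finset.sum_congr rfl (fun x _ => ?_)
              rw [div_mul_div_comm, one_mul]
          _ ≤ (1 + Real.log (R ^ 2)) * (1 / pr y) :=
              mul_le_mul_of_nonneg_right hnear (by positivity)
    _ = (1 + Real.log (R ^ 2)) *
          ∑ y ∈ Fintype.piFinset (fun _ : Fin m => Finset.Ico Q0 Q1), 1 / pr y := by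
        rw [Finset.mul_sum]
    _ ≤ (1 + Real.log (R ^ 2)) * (1 + Real.log Q1) ^ m :=
        mul_le_mul_of_nonneg_left (box_le h0 h) hl
    _ = (1 + Real.log (R ^ 2)) * (1 + Real.log Q1) ^ (m + 1 - 1) := by simp

/-- cubes close to a given one. -/
theorem close_le {n Q0 Q1 : ℕ} (hn : 1 ≤ n) (h0 : 0 < Q0) (h : Q0 ≤ Q1) {R : ℝ} (hR : 1 ≤ R)
    (q : Fin n → ℕ) [DecidablePred (fun q' => Close R q q')] :
    ∑ q' ∈ (Fintype.piFinset (fun _ : Fin n => Finset.Ico Q0 Q1)).filter
        (fun q' => Close R q q'), 1 / pr q'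
      ≤ (n + 1) * ((1 + Real.log (R ^ 2)) * (1 + Real.log Q1) ^ (n - 1)) := by
  classical
  set B := Fintype.piFinset (fun _ : Fin n => Finset.Ico Q0 Q1) with hB
  set S1 : Fin n → Finset (Fin n → ℕ) := fun i => B.filter
    (fun q' => (q i : ℝ) ≤ R * q' i ∧ (q' i : ℝ) ≤ R * q i) with hS1
  set S2 := B.filter (fun q' => pr q ≤ R * pr q' ∧ pr q' ≤ R * pr q) with hS2
  have hpt : ∀ q' : Fin n → ℕ, 0 ≤ 1 / pr q' := fun k => div_nonneg zero_le_one (pr_nonneg k)
  have hsum : ∑ q' ∈ B.filter (fun q' => Close R q q'), 1 / pr q'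
      ≤ (∑ i, ∑ q' ∈ S1 i, 1 / pr q') + ∑ q' ∈ S2, 1 / pr q' := by
    have e1 : ∀ i, ∑ q' ∈ S1 i, 1 / pr q' = ∑ q' ∈ B, if ((q i : ℝ) ≤ R * q' i ∧
        (q' i : ℝ) ≤ R * q i) then 1 / pr q' else 0 := fun i => Finset.sum_filter _ _
    rw [Finset.sum_filter, Finset.sum_congr rfl (fun i _ => e1 i), hS2, Finset.sum_filter,
      Finset.sum_comm, ← Finset.sum_add_distrib]
    refine Finset.sum_le_sum (fun q' _ => ?_)
    split_ifs with hc hp hp
    · exact le_add_of_nonneg_left (Finset.sum_nonneg (fun i _ => by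
        split_ifs
        · exact hpt q'
        · exact le_refl 0))
    · rcases hc with ⟨i, hi⟩ | hc
      · rw [add_zero]
        have := Finset.single_le_sum (f := fun i => if ((q i : ℝ) ≤ R * q' i ∧
          (q' i : ℝ) ≤ R * q i) then 1 / pr q' else 0) (s := univ) (fun i _ => by
            split_ifs
            · exact hpt q'
            · exact le_refl 0) (Finset.mem_univ i)
        simp only [if_pos hi] at this
        exact this
      · exact absurd hc hp
    · exact add_nonneg (Finset.sum_nonneg (fun i _ => by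
        split_ifs
        · exact hpt q'
        · exact le_refl 0)) (hpt q')
    · exact add_nonneg (Finset.sum_nonneg (fun i _ => by
        split_ifs
        · exact hpt q'
        · exact le_refl 0)) (le_refl 0)
  set X := (1 + Real.log (R ^ 2)) * (1 + Real.log Q1) ^ (n - 1) with hX
  calc ∑ q' ∈ B.filter (fun q' => Close R q q'), 1 / pr q'
      ≤ (∑ i, ∑ q' ∈ S1 i, 1 / pr q') + ∑ q' ∈ S2, 1 / pr q' := hsum
    _ ≤ (∑ _i : Fin n, X) + X :=
        add_le_add (Finset.sum_le_sum (fun i _ => coord_le h0 h hR q i))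
          (prod_le hn h0 h hR q)
    _ = (n + 1) * X := by
        rw [Finset.sum_const, Finset.card_univ, Fintype.card_fin, nsmul_eq_mul]
        ring

/-- the weight of a lattice point is at most that of its cube. -/
theorem weight_le {n g : ℕ} (hg : 0 < g) {q : Fin n → ℕ} (hq : ∀ i, 0 < q i)
    (ρ : Fin n → Fin g) :
    (g : ℝ) / pr (fun i => g * q i + (ρ i : ℕ)) ≤ (g : ℝ) / (g : ℝ) ^ n * (1 / pr q) := by
  have hg' : (0 : ℝ) < g := by exact_mod_cast hg
  have h1 : 0 < (g : ℝ) ^ n * pr q := mul_pos (by positivity) (pr_pos hq)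
  calc (g : ℝ) / pr (fun i => g * q i + (ρ i : ℕ)) ≤ (g : ℝ) / ((g : ℝ) ^ n * pr q) :=
        div_le_div_of_nonneg_left hg'.le h1 (pr_ge q ρ)
    _ = (g : ℝ) / (g : ℝ) ^ n * (1 / pr q) := by
        rw [div_mul_div_comm, mul_one]

/-- the mass of the points of a cube. -/
theorem mass_le {n g F : ℕ} (hn : 1 ≤ n) (hg : 0 < g) {b : Fin n → ℕ}
    (hF : cnt n g b ≤ F * g ^ (n - 1)) :
    ((Res n g b).card : ℝ) * ((g : ℝ) / (g : ℝ) ^ n) ≤ F := by
  have hg' : (0 : ℝ) < g := by exact_mod_cast hg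
  have hgn : (0 : ℝ) < (g : ℝ) ^ n := by positivity
  rw [← mul_div_assoc, div_le_iff₀ hgn, card_Res]
  have h1 : (cnt n g b : ℝ) ≤ F * (g : ℝ) ^ (n - 1) := by exact_mod_cast hF
  calc (cnt n g b : ℝ) * g ≤ F * (g : ℝ) ^ (n - 1) * g := mul_le_mul_of_nonneg_right h1 hg'.le
    _ = F * (g : ℝ) ^ n := by
        rw [mul_assoc, ← pow_succ, Nat.sub_add_cancel hn]

theorem t_LAT2 : V5LD.S_LAT2 := by
  classical
  intro n hn
  refine ⟨(n + 1) * (2 * n + 2), by positivity, ?_⟩
  intro g F b Q0 Q1 R hg h0 h hR hF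
  have hg' : (0 : ℝ) < g := by exact_mod_cast hg
  set B := Fintype.piFinset (fun _ : Fin n => Finset.Ico Q0 Q1) with hB
  set G : ℝ := (g : ℝ) / (g : ℝ) ^ n with hG
  have hG0 : 0 ≤ G := by positivity
  set A : ℝ := ((Res n g b).card : ℝ) * G with hA
  have hA0 : 0 ≤ A := by positivity
  have hAF : A ≤ F := mass_le hn hg hF
  have hBpos : ∀ q ∈ B, ∀ i, 0 < q i := by
    intro q hq i
    have := Fintype.mem_piFinset.1 hq i
    rw [Finset.mem_Ico] at this
    omega
  set L : ℝ := 1 + Real.log Q1 with hL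
  have hQ1 : (1 : ℝ) ≤ Q1 := by exact_mod_cast lt_of_lt_of_le h0 h
  have hL0 : 0 ≤ L := by
    have := Real.log_nonneg hQ1
    linarith
  set R' : ℝ := 2 ^ n * R with hR'
  have hR'1 : 1 ≤ R' := by
    have : (1 : ℝ) ≤ 2 ^ n := one_le_pow₀ (by norm_num)
    nlinarith
  -- the inner sum
  have inner : ∀ q ∈ B, ∀ ρ : Fin n → Fin g,
      ∑ k' ∈ Lat n g b Q0 Q1, (if Close R (fun i => g * q i + (ρ i : ℕ)) k' then
        (g : ℝ) / pr k' else 0)
      ≤ A * ((n + 1) * ((1 + Real.log (R' ^ 2)) * L ^ (n - 1))) := by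
    intro q hq ρ
    rw [sum_Lat hg]
    calc ∑ q' ∈ B, ∑ ρ' ∈ Res n g b, (if Close R (fun i => g * q i + (ρ i : ℕ))
          (fun i => g * q' i + (ρ' i : ℕ)) then
          (g : ℝ) / pr (fun i => g * q' i + (ρ' i : ℕ)) else 0)
        ≤ ∑ q' ∈ B, ∑ _ρ' ∈ Res n g b, (if Close R' q q' then G * (1 / pr q') else 0) := by
          refine Finset.sum_le_sum (fun q' hq' => Finset.sum_le_sum (fun ρ' _ => ?_))
          by_cases hc : Close R (fun i => g * q i + (ρ i : ℕ))
              (fun i => g * q' i + (ρ' i : ℕ))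
          · have hc' := close_cube hn hg hR (hBpos q hq) (hBpos q' hq') ρ ρ' hc
            rw [if_pos hc, if_pos hc']
            exact weight_le hg (hBpos q' hq') ρ'
          · rw [if_neg hc]
            split_ifs
            · exact mul_nonneg hG0 (div_nonneg zero_le_one (pr_nonneg _))
            · exact le_refl 0
      _ = A * ∑ q' ∈ B.filter (fun q' => Close R' q q'), 1 / pr q' := by
          rw [Finset.sum_filter, Finset.mul_sum]
          refine Finset.sum_congr rfl (fun q' _ => ?_)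
          rw [Finset.sum_const, nsmul_eq_mul, hA]
          split_ifs
          · ring
          · simp
      _ ≤ A * ((n + 1) * ((1 + Real.log (R' ^ 2)) * L ^ (n - 1))) :=
          mul_le_mul_of_nonneg_left (close_le hn h0 h hR'1 q) hA0
  set X : ℝ := (n + 1) * ((1 + Real.log (R' ^ 2)) * L ^ (n - 1)) with hX
  have hX0 : 0 ≤ X := by
    have := Real.log_nonneg (one_le_pow₀ hR'1 : (1 : ℝ) ≤ R' ^ 2)
    have : 0 ≤ 1 + Real.log (R' ^ 2) := by linarith
    positivity
  have total : ∑ p ∈ ((Lat n g b Q0 Q1) ×ˢ (Lat n g b Q0 Q1)).filter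
        (fun p => Close R p.1 p.2), ((g : ℝ) / pr p.1) * ((g : ℝ) / pr p.2)
      ≤ (A * L ^ n) * (A * X) := by
    rw [Finset.sum_filter, Finset.sum_product, sum_Lat hg]
    calc ∑ q ∈ B, ∑ ρ ∈ Res n g b, ∑ k' ∈ Lat n g b Q0 Q1,
          (if Close R (fun i => g * q i + (ρ i : ℕ)) k' then
          ((g : ℝ) / pr (fun i => g * q i + (ρ i : ℕ))) * ((g : ℝ) / pr k') else 0)
        ≤ ∑ q ∈ B, ∑ _ρ ∈ Res n g b, (G * (1 / pr q)) * (A * X) := by
          refine Finset.sum_le_sum (fun q hq => Finset.sum_le_sum (fun ρ _ => ?_))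
          calc ∑ k' ∈ Lat n g b Q0 Q1,
                (if Close R (fun i => g * q i + (ρ i : ℕ)) k' then
                ((g : ℝ) / pr (fun i => g * q i + (ρ i : ℕ))) * ((g : ℝ) / pr k') else 0)
              = ((g : ℝ) / pr (fun i => g * q i + (ρ i : ℕ))) *
                ∑ k' ∈ Lat n g b Q0 Q1, (if Close R (fun i => g * q i + (ρ i : ℕ)) k' then
                  (g : ℝ) / pr k' else 0) := by
                rw [Finset.mul_sum]
                refine Finset.sum_congr rfl (fun k' _ => ?_)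
                rw [mul_ite, mul_zero]
            _ ≤ (G * (1 / pr q)) * (A * X) := by
                refine mul_le_mul (weight_le hg (hBpos q hq) ρ) (inner q hq ρ) ?_ ?_
                · refine Finset.sum_nonneg (fun k' _ => ?_)
                  split_ifs
                  · exact div_nonneg hg'.le (pr_nonneg _)
                  · exact le_refl 0
                · exact mul_nonneg hG0 (div_nonneg zero_le_one (pr_nonneg _))
      _ = (A * ∑ q ∈ B, 1 / pr q) * (A * X) := by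
          rw [Finset.mul_sum, Finset.sum_mul]
          refine Finset.sum_congr rfl (fun q _ => ?_)
          rw [Finset.sum_const, nsmul_eq_mul, hA]
          ring
      _ ≤ (A * L ^ n) * (A * X) := by
          refine mul_le_mul_of_nonneg_right ?_ (mul_nonneg hA0 hX0)
          exact mul_le_mul_of_nonneg_left (box_le h0 h) hA0
  refine total.trans ?_
  have hlogR : 0 ≤ Real.log R := Real.log_nonneg hR
  have h3 : 1 + Real.log (R' ^ 2) ≤ (2 * n + 2) * (1 + Real.log R) := by
    rw [hR', Real.log_pow, Real.log_mul (by positivity) (by linarith), Real.log_pow]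
    have hl2 : Real.log 2 ≤ 1 := by
      have := Real.log_two_lt_d9
      linarith
    have hl2' : 0 ≤ Real.log 2 := Real.log_nonneg (by norm_num)
    have hn0 : (0 : ℝ) ≤ n := by positivity
    push_cast
    nlinarith [mul_le_mul_of_nonneg_left hl2 hn0, mul_nonneg hn0 hlogR]
  have h4 : L ^ n * L ^ (n - 1) = L ^ (2 * n - 1) := by
    rw [← pow_add]
    congr 1
    omega
  have hAA : A * A ≤ (F : ℝ) * F := mul_le_mul hAF hAF hA0 (by positivity)
  calc (A * L ^ n) * (A * X)
      = (A * A) * ((n + 1) * ((1 + Real.log (R' ^ 2)) * (L ^ n * L ^ (n - 1)))) := by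
        rw [hX]
        ring
    _ ≤ ((F : ℝ) * F) * ((n + 1) * (((2 * n + 2) * (1 + Real.log R)) * (L ^ (2 * n - 1)))) := by
        rw [h4]
        refine mul_le_mul hAA ?_ ?_ (by positivity)
        · refine mul_le_mul_of_nonneg_left ?_ (by positivity)
          exact mul_le_mul_of_nonneg_right h3 (by positivity)
        · have := Real.log_nonneg (one_le_pow₀ hR'1 : (1 : ℝ) ≤ R' ^ 2)
          have : 0 ≤ 1 + Real.log (R' ^ 2) := by linarith
          positivity
    _ = (n + 1) * (2 * n + 2) * (F : ℝ) ^ 2 * L ^ (2 * n - 1) * (1 + Real.log R) := by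
        ring

end V5LD.LatTwo
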