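import Mathlib
import Pool.Agent.V5helper34.LD.LAT2

/-!
The primitive lattice points carry a positive proportion of the mass.
-/

open Finset

namespace V5LD.LatOne

open V5LD.Cubes V5LD.LatTwo

/-- mass of all lattice points of the box from below. -/
theorem lower {n g : ℕ} (hg : 0 < g) (b : Fin n → ℕ) {Q0 Q1 : ℕ} (h0 : 0 < Q0)
    (h : Q0 ≤ Q1) (hL : 1 ≤ Real.log ((Q1 : ℝ) / Q0)) :
    ((Res n g b).card : ℝ) * ((g : ℝ) / (g : ℝ) ^ n) * (Real.log ((Q1 : ℝ) / Q0) - 1) ^ n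
      ≤ ∑ k ∈ Lat n g b Q0 Q1, (g : ℝ) / pr k := by
  have hg' : (0 : ℝ) < g := by exact_mod_cast hg
  have hq0 : (1 : ℝ) ≤ Q0 := by exact_mod_cast h0
  have hq1 : (1 : ℝ) ≤ Q1 := by exact_mod_cast lt_of_lt_of_le h0 h
  set G : ℝ := (g : ℝ) / (g : ℝ) ^ n with hG
  have hG0 : 0 ≤ G := by positivity
  have harm : Real.log ((Q1 : ℝ) / Q0) - 1 ≤ ∑ x ∈ Finset.Ico Q0 Q1, (1 : ℝ) / (x + 1) := by
    have h1 := le_harm h
    have h2 : Real.log ((Q1 : ℝ) / Q0) - Real.log 2 ≤ Real.log (((Q1 : ℝ) + 1) / (Q0 + 1)) := by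
      rw [← Real.log_div (by positivity) (by norm_num)]
      refine Real.log_le_log (by positivity) ?_
      rw [div_div, div_le_div_iff₀ (by positivity) (by positivity)]
      nlinarith
    have := Real.log_two_lt_d9
    linarith
  rw [sum_Lat hg]
  calc ((Res n g b).card : ℝ) * G * (Real.log ((Q1 : ℝ) / Q0) - 1) ^ n
      ≤ ((Res n g b).card : ℝ) * G * ∏ _i : Fin n, ∑ x ∈ Finset.Ico Q0 Q1, (1 : ℝ) / (x + 1) := by
        refine mul_le_mul_of_nonneg_left ?_ (by positivity)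
        rw [Finset.prod_const, Finset.card_univ, Fintype.card_fin]
        exact pow_le_pow_left₀ (by linarith) harm n
    _ = ((Res n g b).card : ℝ) * G * ∑ q ∈ Fintype.piFinset
          (fun _ : Fin n => Finset.Ico Q0 Q1), ∏ i, (1 : ℝ) / ((q i : ℝ) + 1) := by
        rw [sum_box (fun _ : Fin n => Finset.Ico Q0 Q1) (fun x : ℕ => (1 : ℝ) / (x + 1))]
    _ = ∑ q ∈ Fintype.piFinset (fun _ : Fin n => Finset.Ico Q0 Q1),
          ∑ _ρ ∈ Res n g b, G * ∏ i, (1 : ℝ) / ((q i : ℝ) + 1) := by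
        rw [Finset.mul_sum]
        refine Finset.sum_congr rfl (fun q _ => ?_)
        rw [Finset.sum_const, nsmul_eq_mul]
        ring
    _ ≤ _ := by
        refine Finset.sum_le_sum (fun q hq => Finset.sum_le_sum (fun ρ _ => ?_))
        have hqp : ∀ i, 0 < q i := by
          intro i
          have := Fintype.mem_piFinset.1 hq i
          rw [Finset.mem_Ico] at this
          omega
        have h1 : 0 < pr (fun i => g * q i + (ρ i : ℕ)) :=
          pr_pos (fun i => Nat.add_pos_left (Nat.mul_pos hg (hqp i)) _)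
        have h2 := pr_le q ρ
        have h3 : ∏ i, (1 : ℝ) / ((q i : ℝ) + 1) = 1 / ∏ i, ((q i : ℝ) + 1) := by
          simp [Finset.prod_inv_distrib]
        rw [h3, hG, div_mul_div_comm, mul_one]
        exact div_le_div_of_nonneg_left hg'.le h1 h2

/-- mass of all lattice points of a box from above. -/
theorem upper {n g : ℕ} (hg : 0 < g) (b : Fin n → ℕ) {Q0 Q1 : ℕ} (h0 : 0 < Q0)
    (h : Q0 ≤ Q1) :
    ∑ k ∈ Lat n g b Q0 (Q1 + 1), (g : ℝ) / pr k
      ≤ ((Res n g b).card : ℝ) * ((g : ℝ) / (g : ℝ) ^ n)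
        * (1 + Real.log ((Q1 : ℝ) / Q0)) ^ n := by
  have hg' : (0 : ℝ) < g := by exact_mod_cast hg
  set G : ℝ := (g : ℝ) / (g : ℝ) ^ n with hG
  have hG0 : 0 ≤ G := by positivity
  rw [sum_Lat hg]
  calc ∑ q ∈ Fintype.piFinset (fun _ : Fin n => Finset.Ico Q0 (Q1 + 1)), ∑ ρ ∈ Res n g b,
        (g : ℝ) / pr (fun i => g * q i + (ρ i : ℕ))
      ≤ ∑ q ∈ Fintype.piFinset (fun _ : Fin n => Finset.Ico Q0 (Q1 + 1)), ∑ _ρ ∈ Res n g b,
        G * ∏ i, (1 : ℝ) / (q i : ℝ) := by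
        refine Finset.sum_le_sum (fun q hq => Finset.sum_le_sum (fun ρ _ => ?_))
        have hqp : ∀ i, 0 < q i := by
          intro i
          have := Fintype.mem_piFinset.1 hq i
          rw [Finset.mem_Ico] at this
          omega
        rw [← one_div_pr]
        exact weight_le hg hqp ρ
    _ = ((Res n g b).card : ℝ) * G * ∑ q ∈ Fintype.piFinset
          (fun _ : Fin n => Finset.Ico Q0 (Q1 + 1)), ∏ i, (1 : ℝ) / (q i : ℝ) := by
        rw [Finset.mul_sum]
        refine Finset.sum_congr rfl (fun q _ => ?_)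
        rw [Finset.sum_const, nsmul_eq_mul]
        ring
    _ = ((Res n g b).card : ℝ) * G *
          ∏ _i : Fin n, ∑ x ∈ Finset.Ico Q0 (Q1 + 1), (1 : ℝ) / x := by
        rw [sum_box (fun _ : Fin n => Finset.Ico Q0 (Q1 + 1)) (fun x : ℕ => (1 : ℝ) / x)]
    _ ≤ ((Res n g b).card : ℝ) * G * (1 + Real.log ((Q1 : ℝ) / Q0)) ^ n := by
        refine mul_le_mul_of_nonneg_left ?_ (by positivity)
        rw [Finset.prod_const, Finset.card_univ, Fintype.card_fin]
        refine pow_le_pow_left₀ (Finset.sum_nonneg (fun _ _ => by positivity)) ?_ n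
        have : Finset.Ico Q0 (Q1 + 1) = Finset.Icc Q0 Q1 := by
          ext x
          simp [Finset.mem_Ico, Finset.mem_Icc]
        rw [this]
        exact harm_le h0 h

open Classical in
/-- the points of the box which are `m` times a lattice point. -/
noncomputable def NM (n g : ℕ) (b : Fin n → ℕ) (Q0 Q1 m : ℕ) : Finset (Fin n → ℕ) :=
  (Lat n g b Q0 Q1).filter (fun k => ∃ k' : Fin n → ℕ,
    k = (fun i => m * k' i) ∧ g ∣ ∑ i, k' i * b i)

theorem pr_smul {n : ℕ} (m : ℕ) (k : Fin n → ℕ) :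
    pr (fun i => m * k i) = (m : ℝ) ^ n * pr k := by
  have : (m : ℝ) ^ n = ∏ _i : Fin n, (m : ℝ) := by simp
  rw [this, pr, pr, ← Finset.prod_mul_distrib]
  refine Finset.prod_congr rfl (fun i _ => ?_)
  push_cast
  ring

/-- the sum over multiples of `m`, given a set containing the quotients. -/
theorem image_le {n g : ℕ} (b : Fin n → ℕ) (Q0 Q1 m : ℕ) (hm : 0 < m)
    (S : Finset (Fin n → ℕ))
    (hS : ∀ k' : Fin n → ℕ, (fun i => m * k' i) ∈ Lat n g b Q0 Q1 →
      g ∣ ∑ i, k' i * b i → k' ∈ S) :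
    ∑ k ∈ NM n g b Q0 Q1 m, (g : ℝ) / pr k
      ≤ 1 / (m : ℝ) ^ n * ∑ k ∈ S, (g : ℝ) / pr k := by
  classical
  have hsub : NM n g b Q0 Q1 m ⊆ S.image (fun k' i => m * k' i) := by
    intro k hk
    simp only [NM, Finset.mem_filter] at hk
    obtain ⟨hk1, k', rfl, hk2⟩ := hk
    exact Finset.mem_image.2 ⟨k', hS k' hk1 hk2, rfl⟩
  have hinj : Function.Injective (fun (k' : Fin n → ℕ) i => m * k' i) := by
    intro x y hxy
    funext i
    exact Nat.eq_of_mul_eq_mul_left hm (congrFun hxy i)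
  calc ∑ k ∈ NM n g b Q0 Q1 m, (g : ℝ) / pr k
      ≤ ∑ k ∈ S.image (fun k' i => m * k' i), (g : ℝ) / pr k :=
        Finset.sum_le_sum_of_subset_of_nonneg hsub
          (fun k _ _ => div_nonneg (by positivity) (pr_nonneg k))
    _ = ∑ k' ∈ S, (g : ℝ) / pr (fun i => m * k' i) :=
        Finset.sum_image (fun x _ y _ hxy => hinj hxy)
    _ = 1 / (m : ℝ) ^ n * ∑ k ∈ S, (g : ℝ) / pr k := by
        rw [Finset.mul_sum]
        refine Finset.sum_congr rfl (fun k _ => ?_)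
        rw [pr_smul, div_mul_div_comm, one_mul]

/-- multiples of a small `m`. -/
theorem small_le {n g : ℕ} (hg : 0 < g) (b : Fin n → ℕ) {Q0 Q1 m : ℕ} (h : Q0 ≤ Q1)
    (hm : 0 < m) (hmQ : m ≤ Q0) :
    ∑ k ∈ NM n g b Q0 Q1 m, (g : ℝ) / pr k
      ≤ 1 / (m : ℝ) ^ n * (((Res n g b).card : ℝ) * ((g : ℝ) / (g : ℝ) ^ n)
        * (2 + Real.log ((Q1 : ℝ) / Q0)) ^ n) := by
  have h0 : 0 < Q0 := by omega
  refine (image_le b Q0 Q1 m hm (Lat n g b (Q0 / m) (Q1 / m + 1)) ?_).trans ?_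
  · intro k' hk hb
    simp only [Lat, Finset.mem_filter, Fintype.mem_piFinset, Finset.mem_Ico] at hk ⊢
    refine ⟨fun i => ⟨?_, ?_⟩, hb⟩
    · have h1 := (hk.1 i).1
      have h2 := Nat.div_mul_le_self Q0 m
      have h3 : m * (g * (Q0 / m)) ≤ m * k' i := by
        calc m * (g * (Q0 / m)) = g * (Q0 / m * m) := by ring
          _ ≤ g * Q0 := Nat.mul_le_mul_left g h2
          _ ≤ m * k' i := h1
      exact Nat.le_of_mul_le_mul_left h3 hm
    · have h1 := (hk.1 i).2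
      have h2 : Q1 < (Q1 / m + 1) * m := by
        rw [← Nat.div_lt_iff_lt_mul hm]
        omega
      have h3 : m * k' i < m * (g * (Q1 / m + 1)) := by
        calc m * k' i < g * Q1 := h1
          _ ≤ g * ((Q1 / m + 1) * m) := Nat.mul_le_mul_left g h2.le
          _ = m * (g * (Q1 / m + 1)) := by ring
      exact Nat.lt_of_mul_lt_mul_left h3
  · refine mul_le_mul_of_nonneg_left ?_ (by positivity)
    have hd0 : 0 < Q0 / m := Nat.div_pos hmQ hm
    have hd : Q0 / m ≤ Q1 / m := Nat.div_le_div_right h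
    refine (upper hg b hd0 hd).trans ?_
    refine mul_le_mul_of_nonneg_left ?_ (by positivity)
    have hm' : (0 : ℝ) < m := by exact_mod_cast hm
    have hd0' : (1 : ℝ) ≤ ((Q0 / m : ℕ) : ℝ) := by exact_mod_cast hd0
    have hd1' : (1 : ℝ) ≤ ((Q1 / m : ℕ) : ℝ) := by exact_mod_cast lt_of_lt_of_le hd0 hd
    have hQ0 : (0 : ℝ) < Q0 := by exact_mod_cast h0
    have hQ1 : (0 : ℝ) < Q1 := by exact_mod_cast lt_of_lt_of_le h0 h
    have h1 : ((Q1 / m : ℕ) : ℝ) ≤ Q1 / m := Nat.cast_div_le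
    have h2 : (Q0 : ℝ) / m ≤ 2 * ((Q0 / m : ℕ) : ℝ) := by
      have h3 : Q0 < (Q0 / m + 1) * m := by
        rw [← Nat.div_lt_iff_lt_mul hm]
        omega
      have h4 : (Q0 : ℝ) < (((Q0 / m : ℕ) : ℝ) + 1) * m := by exact_mod_cast h3
      rw [div_le_iff₀ hm']
      nlinarith
    have h5 : ((Q1 / m : ℕ) : ℝ) / ((Q0 / m : ℕ) : ℝ) ≤ 2 * ((Q1 : ℝ) / Q0) := by
      rw [div_le_iff₀ (by linarith)]
      calc ((Q1 / m : ℕ) : ℝ) ≤ Q1 / m := h1
        _ = (Q1 : ℝ) / Q0 * (Q0 / m) := by field_simp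
        _ ≤ (Q1 : ℝ) / Q0 * (2 * ((Q0 / m : ℕ) : ℝ)) :=
            mul_le_mul_of_nonneg_left h2 (by positivity)
        _ = 2 * ((Q1 : ℝ) / Q0) * ((Q0 / m : ℕ) : ℝ) := by ring
    have h6 : Real.log (((Q1 / m : ℕ) : ℝ) / ((Q0 / m : ℕ) : ℝ))
        ≤ 1 + Real.log ((Q1 : ℝ) / Q0) := by
      calc Real.log (((Q1 / m : ℕ) : ℝ) / ((Q0 / m : ℕ) : ℝ))
          ≤ Real.log (2 * ((Q1 : ℝ) / Q0)) := Real.log_le_log (by positivity) h5
        _ = Real.log 2 + Real.log ((Q1 : ℝ) / Q0) :=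
            Real.log_mul (by norm_num) (by positivity)
        _ ≤ 1 + Real.log ((Q1 : ℝ) / Q0) := by
            have := Real.log_two_lt_d9
            linarith
    have h7 : 0 ≤ Real.log (((Q1 / m : ℕ) : ℝ) / ((Q0 / m : ℕ) : ℝ)) := by
      refine Real.log_nonneg ?_
      rw [one_le_div (by linarith)]
      exact_mod_cast hd
    exact pow_le_pow_left₀ (by linarith) (by linarith) n

/-- multiples of a large `m`. -/
theorem large_le {n g : ℕ} (hg : 0 < g) (b : Fin n → ℕ) {Q0 Q1 m : ℕ}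
    (h0 : 0 < Q0) (h : Q0 ≤ Q1) (hm : 0 < m) :
    ∑ k ∈ NM n g b Q0 Q1 m, (g : ℝ) / pr k
      ≤ 1 / (m : ℝ) ^ n * (g * (1 + Real.log (g * Q1)) ^ n) := by
  have hgQ : 0 < g * Q1 := Nat.mul_pos hg (by omega)
  refine (image_le b Q0 Q1 m hm
    (Fintype.piFinset (fun _ : Fin n => Finset.Icc 1 (g * Q1))) ?_).trans ?_
  · intro k' hk _
    simp only [Lat, Finset.mem_filter, Fintype.mem_piFinset, Finset.mem_Ico] at hk
    rw [Fintype.mem_piFinset]
    intro i
    rw [Finset.mem_Icc]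
    have h1 := (hk.1 i).1
    have h2 := (hk.1 i).2
    have h3 : 0 < g * Q0 := Nat.mul_pos hg h0
    constructor
    · have : 0 < m * k' i := by omega
      exact Nat.pos_of_mul_pos_left this
    · have : 1 * k' i ≤ m * k' i := Nat.mul_le_mul_right _ hm
      omega
  · refine mul_le_mul_of_nonneg_left ?_ (by positivity)
    calc ∑ k ∈ Fintype.piFinset (fun _ : Fin n => Finset.Icc 1 (g * Q1)), (g : ℝ) / pr k
        = g * ∑ k ∈ Fintype.piFinset (fun _ : Fin n => Finset.Icc 1 (g * Q1)),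
            ∏ i, (1 : ℝ) / (k i : ℝ) := by
          rw [Finset.mul_sum]
          refine Finset.sum_congr rfl (fun k _ => ?_)
          rw [← one_div_pr, mul_one_div]
      _ = g * ∏ _i : Fin n, ∑ x ∈ Finset.Icc 1 (g * Q1), (1 : ℝ) / x := by
          rw [sum_box (fun _ : Fin n => Finset.Icc 1 (g * Q1)) (fun x : ℕ => (1 : ℝ) / x)]
      _ ≤ g * (1 + Real.log (g * Q1)) ^ n := by
          refine mul_le_mul_of_nonneg_left ?_ (by positivity)
          rw [Finset.prod_const, Finset.card_univ, Fintype.card_fin]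
          refine pow_le_pow_left₀ (Finset.sum_nonneg (fun _ _ => by positivity)) ?_ n
          have := harm_le (le_refl 1) (show 1 ≤ g * Q1 from hgQ)
          simpa using this

/-- tails of the sum of inverse squares. -/
theorem sq_tail {a M : ℕ} (ha : 1 ≤ a) (h : a ≤ M) :
    ∑ m ∈ Finset.Icc (a + 1) M, (1 : ℝ) / (m : ℝ) ^ 2 ≤ 1 / a - 1 / M := by
  induction M, h using Nat.le_induction with
  | base => simp
  | succ M hM ih =>
    rw [Finset.sum_Icc_succ_top (by omega)]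
    have h1 : (1 : ℝ) ≤ M := by exact_mod_cast ha.trans hM
    have h2 : (1 : ℝ) / ((M + 1 : ℕ) : ℝ) ^ 2 ≤ 1 / M - 1 / ((M + 1 : ℕ) : ℝ) := by
      push_cast
      rw [div_sub_div _ _ (by positivity) (by positivity), div_le_div_iff₀ (by positivity)
        (by positivity)]
      nlinarith
    linarith

theorem sq_two (M : ℕ) : ∑ m ∈ Finset.Icc 2 M, (1 : ℝ) / (m : ℝ) ^ 2 ≤ 3 / 4 := by
  rcases Nat.lt_or_ge M 2 with h | h
  · rw [Finset.Icc_eq_empty (by omega)]
    norm_num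
  · have h1 : Finset.Icc 2 M = insert 2 (Finset.Icc (2 + 1) M) := by
      ext x
      simp only [Finset.mem_Icc, Finset.mem_insert]
      omega
    rw [h1, Finset.sum_insert (by simp)]
    have h2 := sq_tail (a := 2) (by norm_num) h
    have h3 : (0 : ℝ) ≤ 1 / M := by positivity
    have h4 : (1 : ℝ) / ((2 : ℕ) : ℝ) ^ 2 = 1 / 4 := by norm_num
    have h5 : (1 : ℝ) / ((2 : ℕ) : ℝ) = 1 / 2 := by norm_num
    rw [h5] at h2
    rw [h4]
    linarith

/-- numerical comparison. -/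
theorem compare {n : ℕ} (hn : 1 ≤ n) {X A : ℝ} (hX : 32 * (n : ℝ) ≤ X) (hA : 1 ≤ A) :
    1 / 16 * X ^ n ≤ A * (X - 1) ^ n - 3 / 4 * (A * (2 + X) ^ n) - 1 := by
  have hn' : (1 : ℝ) ≤ n := by exact_mod_cast hn
  have hX0 : (0 : ℝ) < X := by linarith
  have hXn : 0 < X ^ n := by positivity
  have h1 : 15 / 16 * X ^ n ≤ (X - 1) ^ n := by
    have hb := one_add_mul_le_pow (a := -(1 / X)) (by
      have : 1 / X ≤ 1 := by
        rw [div_le_one hX0]
        linarith
      linarith) n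
    have hs : (X - 1) ^ n = (1 + -(1 / X)) ^ n * X ^ n := by
      rw [← mul_pow]
      congr 1
      field_simp
      ring
    rw [hs]
    refine mul_le_mul_of_nonneg_right (le_trans ?_ hb) hXn.le
    have : (n : ℝ) * (1 / X) ≤ 1 / 16 := by
      rw [mul_one_div, div_le_iff₀ hX0]
      linarith
    linarith
  have h2 : (2 + X) ^ n ≤ 13 / 12 * X ^ n := by
    have hb := one_add_mul_le_pow (a := -(2 / (2 + X))) (by
      have : 2 / (2 + X) ≤ 1 := by
        rw [div_le_one (by linarith)]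
        linarith
      linarith) n
    have hs : X ^ n = (1 + -(2 / (2 + X))) ^ n * (2 + X) ^ n := by
      rw [← mul_pow]
      congr 1
      field_simp
      ring
    have hn2 : (n : ℝ) * (2 / (2 + X)) ≤ 1 / 13 := by
      rw [mul_div_assoc', div_le_iff₀ (by linarith)]
      linarith
    have h3 : 12 / 13 * (2 + X) ^ n ≤ X ^ n := by
      rw [hs]
      refine mul_le_mul_of_nonneg_right (le_trans ?_ hb) (by positivity)
      linarith
    linarith
  have h3 : 32 ≤ X ^ n := by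
    calc (32 : ℝ) ≤ X := by linarith
      _ = X ^ 1 := (pow_one X).symm
      _ ≤ X ^ n := pow_le_pow_right₀ (by linarith) hn
  have h4 : A * (1 / 8 * X ^ n) ≤ A * (X - 1) ^ n - 3 / 4 * (A * (2 + X) ^ n) := by
    have : 1 / 8 * X ^ n ≤ (X - 1) ^ n - 3 / 4 * (2 + X) ^ n := by linarith
    calc A * (1 / 8 * X ^ n) ≤ A * ((X - 1) ^ n - 3 / 4 * (2 + X) ^ n) :=
          mul_le_mul_of_nonneg_left this (by linarith)
      _ = A * (X - 1) ^ n - 3 / 4 * (A * (2 + X) ^ n) := by ring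
  have h5 : 1 / 8 * X ^ n ≤ A * (1 / 8 * X ^ n) := le_mul_of_one_le_left (by positivity) hA
  linarith

theorem t_LAT1 : V5LD.S_LAT1 := by
  classical
  intro n hn
  have hn' : (2 : ℝ) ≤ n := by exact_mod_cast hn
  refine ⟨32 * n, by positivity, ?_⟩
  intro g b Q0 Q1 hg h0 h01 hcnt hC hQ
  have h : Q0 ≤ Q1 := h01.le
  have hg' : (0 : ℝ) < g := by exact_mod_cast hg
  have hgn : (0 : ℝ) < (g : ℝ) ^ n := by positivity
  set Λ : ℝ := Real.log ((Q1 : ℝ) / Q0) with hΛ
  set A : ℝ := ((Res n g b).card : ℝ) * ((g : ℝ) / (g : ℝ) ^ n) with hA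
  set B : ℝ := (g : ℝ) * (1 + Real.log (g * Q1)) ^ n with hB
  have hA1 : 1 ≤ A := by
    rw [hA, ← mul_div_assoc, le_div_iff₀ hgn, card_Res, one_mul]
    have h1 : ((g : ℝ)) ^ (n - 1) ≤ cnt n g b := by exact_mod_cast hcnt
    calc (g : ℝ) ^ n = (g : ℝ) ^ (n - 1) * g := by
          rw [← pow_succ, Nat.sub_add_cancel (by omega)]
      _ ≤ (cnt n g b : ℝ) * g := mul_le_mul_of_nonneg_right h1 hg'.le
  have hQ0 : (0 : ℝ) < Q0 := by exact_mod_cast h0
  have hB0 : 0 ≤ B := by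
    have : (1 : ℝ) ≤ (g : ℝ) * Q1 := by
      have : 1 ≤ g * Q1 := Nat.mul_pos hg (by omega)
      exact_mod_cast this
    have := Real.log_nonneg this
    have : 0 ≤ 1 + Real.log (g * Q1) := by linarith
    positivity
  have hΛ1 : 1 ≤ Λ := by linarith
  have hlow := lower hg b h0 h hΛ1
  -- the complement of the primitive points
  have hf : ∀ k : Fin n → ℕ, 0 ≤ (g : ℝ) / pr k := fun k => div_nonneg hg'.le (pr_nonneg k)
  have hsplit : ∑ k ∈ Lat n g b Q0 Q1, (g : ℝ) / pr k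
      ≤ ∑ k ∈ Fam n g b Q0 Q1, (g : ℝ) / pr k
        + ∑ m ∈ Finset.Icc 2 (g * Q1), ∑ k ∈ NM n g b Q0 Q1 m, (g : ℝ) / pr k := by
    have hFam : Fam n g b Q0 Q1 = (Lat n g b Q0 Q1).filter (fun k => ∀ m : ℕ, 2 ≤ m →
      ∀ k' : Fin n → ℕ, k = (fun i => m * k' i) → ¬ g ∣ ∑ i, k' i * b i) := rfl
    have e1 : ∀ m, ∑ k ∈ NM n g b Q0 Q1 m, (g : ℝ) / pr k
        = ∑ k ∈ Lat n g b Q0 Q1, if (∃ k' : Fin n → ℕ,
          k = (fun i => m * k' i) ∧ g ∣ ∑ i, k' i * b i) then (g : ℝ) / pr k else 0 :=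
      fun m => Finset.sum_filter _ _
    rw [hFam, Finset.sum_filter, Finset.sum_congr rfl (fun m _ => e1 m), Finset.sum_comm,
      ← Finset.sum_add_distrib]
    refine Finset.sum_le_sum (fun k hk => ?_)
    have hnn : ∀ m ∈ Finset.Icc 2 (g * Q1), 0 ≤ (if (∃ k' : Fin n → ℕ,
          k = (fun i => m * k' i) ∧ g ∣ ∑ i, k' i * b i) then (g : ℝ) / pr k else 0) := by
      intro m _
      split_ifs
      · exact hf k
      · exact le_refl 0
    by_cases hp : ∀ m : ℕ, 2 ≤ m →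
      ∀ k' : Fin n → ℕ, k = (fun i => m * k' i) → ¬ g ∣ ∑ i, k' i * b i
    · rw [if_pos hp]
      exact le_add_of_nonneg_right (Finset.sum_nonneg hnn)
    · rw [if_neg hp, zero_add]
      push Not at hp
      obtain ⟨m, hm, k', hk', hb⟩ := hp
      have hmem : m ∈ Finset.Icc 2 (g * Q1) := by
        rw [Finset.mem_Icc]
        refine ⟨hm, ?_⟩
        simp only [Lat, Finset.mem_filter, Fintype.mem_piFinset, Finset.mem_Ico] at hk
        have h2 := hk.1 ⟨0, by omega⟩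
        have h3 : 0 < g * Q0 := Nat.mul_pos hg h0
        rw [hk'] at h2
        simp only at h2
        have h4 : 0 < m * k' ⟨0, by omega⟩ := by omega
        have h5 : 0 < k' ⟨0, by omega⟩ := Nat.pos_of_mul_pos_left h4
        have h6 : m * 1 ≤ m * k' ⟨0, by omega⟩ := Nat.mul_le_mul_left m h5
        omega
      have h7 := Finset.single_le_sum hnn hmem
      rw [if_pos ⟨k', hk', hb⟩] at h7
      exact h7
  have hpow : ∀ m : ℕ, 2 ≤ m → (1 : ℝ) / (m : ℝ) ^ n ≤ 1 / (m : ℝ) ^ 2 := by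
    intro m hm
    have : (1 : ℝ) ≤ m := by
      have : 1 ≤ m := by omega
      exact_mod_cast this
    exact one_div_le_one_div_of_le (by positivity) (pow_le_pow_right₀ this hn)
  have hbad : ∑ m ∈ Finset.Icc 2 (g * Q1), ∑ k ∈ NM n g b Q0 Q1 m, (g : ℝ) / pr k
      ≤ 3 / 4 * (A * (2 + Λ) ^ n) + 1 := by
    have hAL : 0 ≤ A * (2 + Λ) ^ n := by
      have : 0 ≤ 2 + Λ := by linarith
      have : 0 ≤ A := by linarith
      positivity
    calc ∑ m ∈ Finset.Icc 2 (g * Q1), ∑ k ∈ NM n g b Q0 Q1 m, (g : ℝ) / pr k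
        ≤ ∑ m ∈ Finset.Icc 2 (g * Q1), (1 / (m : ℝ) ^ 2 * (A * (2 + Λ) ^ n)
            + if Q0 + 1 ≤ m then 1 / (m : ℝ) ^ 2 * B else 0) := by
          refine Finset.sum_le_sum (fun m hm => ?_)
          have hm2 : 2 ≤ m := (Finset.mem_Icc.1 hm).1
          by_cases hmQ : m ≤ Q0
          · rw [if_neg (by omega), add_zero]
            refine (small_le hg b h (by omega) hmQ).trans ?_
            exact mul_le_mul_of_nonneg_right (hpow m hm2) hAL
          · rw [if_pos (by omega)]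
            refine (large_le hg b h0 h (by omega)).trans ?_
            have h8 : 0 ≤ 1 / (m : ℝ) ^ 2 * (A * (2 + Λ) ^ n) := by positivity
            have h9 := mul_le_mul_of_nonneg_right (hpow m hm2) hB0
            linarith
      _ = (∑ m ∈ Finset.Icc 2 (g * Q1), 1 / (m : ℝ) ^ 2) * (A * (2 + Λ) ^ n)
            + (∑ m ∈ (Finset.Icc 2 (g * Q1)).filter (fun m => Q0 + 1 ≤ m),
              1 / (m : ℝ) ^ 2) * B := by
          rw [Finset.sum_add_distrib, Finset.sum_mul, Finset.sum_mul, Finset.sum_filter]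
      _ ≤ 3 / 4 * (A * (2 + Λ) ^ n) + 1 := by
          refine add_le_add (mul_le_mul_of_nonneg_right (sq_two _) hAL) ?_
          have h8 : ∑ m ∈ (Finset.Icc 2 (g * Q1)).filter (fun m => Q0 + 1 ≤ m),
              (1 : ℝ) / (m : ℝ) ^ 2 ≤ 1 / (Q0 : ℝ) := by
            calc ∑ m ∈ (Finset.Icc 2 (g * Q1)).filter (fun m => Q0 + 1 ≤ m),
                (1 : ℝ) / (m : ℝ) ^ 2
                  ≤ ∑ m ∈ Finset.Icc (Q0 + 1) (g * Q1), (1 : ℝ) / (m : ℝ) ^ 2 := by
                  refine Finset.sum_le_sum_of_subset_of_nonneg ?_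
                    (fun i _ _ => by positivity)
                  intro m hm
                  simp only [Finset.mem_filter, Finset.mem_Icc] at hm ⊢
                  omega
              _ ≤ 1 / (Q0 : ℝ) - 1 / ((g * Q1 : ℕ) : ℝ) := by
                  refine sq_tail h0 ?_
                  calc Q0 ≤ Q1 := h
                    _ = 1 * Q1 := (one_mul _).symm
                    _ ≤ g * Q1 := Nat.mul_le_mul_right _ hg
              _ ≤ 1 / (Q0 : ℝ) := by
                  have : (0 : ℝ) ≤ 1 / ((g * Q1 : ℕ) : ℝ) := by positivity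
                  linarith
          calc (∑ m ∈ (Finset.Icc 2 (g * Q1)).filter (fun m => Q0 + 1 ≤ m),
              1 / (m : ℝ) ^ 2) * B ≤ 1 / (Q0 : ℝ) * Q0 :=
                mul_le_mul h8 hQ hB0 (by positivity)
            _ = 1 := by field_simp
  have hcmp := compare (n := n) (by omega) hC hA1
  linarith

end V5LD.LatOne
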